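import Pool.Agent.P8H30.SW.Fin

/-!
# De Rham-Betti classes on abelian varieties of relative dimension at most two

Let `A` be an abelian variety of dimension `g` over the field of algebraic numbers
(`Pool.Agent.Y102.AbVar g`). The periods of the differentials of the first and of the second kind
along the elements of the rational homology `H_1(A, ℚ)` are the functions `A.dR`. A rational form
`φ` of degree `2 m` on the homology is a de Rham-Betti class (`IsDeRhamBettiForm`), if
`(2 π i) ^ m * φ (v_1, ..., v_2m)` is a polynomial in the periods along the `v_l`, homogeneous of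
degree one in the periods along each `v_l`, with algebraic coefficients; the alternating ones are the
elements of `H^{2 m}(A, ℚ(m))` which are algebraic in the de Rham cohomology.

**Theorem.** Assume that

* all de Rham-Betti bilinear forms on `H_1(A, ℚ)` are alternating (equivalently: the simple factors
  of `A` are pairwise not isogenous, and their endomorphism algebras are totally real fields), and
* the simultaneous eigenspaces of the endomorphisms in `H_1(A, ℂ)` have dimension at most four
  (equivalently: the dimension of every simple factor is at most twice the degree of its field of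
  endomorphisms).

Then the de Rham-Betti classes on `A`, in all degrees, are the linear combinations of exterior
products of divisor classes. In particular they are algebraic.

Examples are all products of pairwise not isogenous simple abelian surfaces and elliptic curves
whose endomorphism algebras are totally real fields (so `ℚ` or real quadratic fields), and all
abelian varieties with real multiplication by a field of degree `g / 2` which is the whole
endomorphism algebra.
-/

set_option autoImplicit false

noncomputable section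

namespace Pool.Agent.Results.MP_470b79_ag.HalfMaximalRealMult

open Pool.Agent Pool.Agent.W516.DR Pool.Agent.H204R3.GP Module TensorProduct

variable {g : ℕ}

/-- the bilinear form `B` on the rational homology of `A` is a de Rham-Betti class:
`2 π i B (u, v)` is a bilinear form with algebraic coefficients in the periods along `u` and the
periods along `v` -/
def IsDRB (A : Y102.AbVar g) (B : A.H1 →ₗ[ℚ] A.H1 →ₗ[ℚ] ℚ) : Prop :=
  IsDeRhamBettiBilinear Y102.QBar A.dR (2 * Real.pi * Complex.I) B

/-- the bilinear form `B` on the rational homology of `A` is a divisor class which is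
algebraic in the de Rham cohomology: it is alternating, a de Rham-Betti class and a Hodge class -/
def IsDivisorClass (A : Y102.AbVar g) (B : A.H1 →ₗ[ℚ] A.H1 →ₗ[ℚ] ℚ) : Prop :=
  (∀ v, B v v = 0) ∧ IsDRB A B ∧ IsHodgeBilinear (A.per : A.H1 →+ (Fin g → ℂ)) B

/-- the endomorphisms of the rational homology which respect the de Rham cohomology -/
abbrev DRBEnd (A : Y102.AbVar g) : Type :=
  {P : Module.End ℚ A.H1 // IsDeRhamBettiEnd Y102.QBar A.dR P}

/-- the simultaneous eigenspace of all endomorphisms `P`, with the eigenvalues `χ P`, in the complex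
homology -/
def eigenspace (A : Y102.AbVar g) (χ : DRBEnd A → ℂ) : Submodule ℂ (ℂ ⊗[ℚ] A.H1) :=
  ⨅ P : DRBEnd A, Module.End.eigenspace (P.1.baseChange ℂ) (χ P)

/-- the value of the exterior product of the alternating bilinear forms `b l` at the vectors
`v (l, i)` (up to the factor `2 ^ m`) -/
def wedge {W : Type} [AddCommGroup W] [Module ℚ W] {m : ℕ} (b : Fin m → W →ₗ[ℚ] W →ₗ[ℚ] ℚ)
    (v : Fin m × Fin 2 → W) : ℚ :=
  ∑ σ : Equiv.Perm (Fin m × Fin 2),
    ((Equiv.Perm.sign σ : ℤ) : ℚ) * ∏ l, b l (v (σ (l, 0))) (v (σ (l, 1)))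

/-- **De Rham-Betti classes of all degrees are linear combinations of products of divisor classes.**
-/
theorem result (A : Y102.AbVar g)
    -- all de Rham-Betti bilinear forms are alternating
    (hA : ∀ B : A.H1 →ₗ[ℚ] A.H1 →ₗ[ℚ] ℚ, IsDRB A B → ∀ v, B v v = 0)
    -- the simultaneous eigenspaces of the endomorphisms have dimension at most four
    (hdim : ∀ χ : DRBEnd A → ℂ, finrank ℂ (eigenspace A χ) ≤ 4)
    -- `φ` is an alternating de Rham-Betti form of degree `2 m`
    (m : ℕ) (φ : A.H1 [⋀^Fin m × Fin 2]→ₗ[ℚ] ℚ)
    (hφ : IsDeRhamBettiForm Y102.QBar A.dR (2 * Real.pi * Complex.I) m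
      (φ : MultilinearMap ℚ (fun _ : Fin m × Fin 2 => A.H1) ℚ)) :
    φ ∈ Submodule.span ℚ {ψ : A.H1 [⋀^Fin m × Fin 2]→ₗ[ℚ] ℚ |
      ∃ b : Fin m → A.H1 →ₗ[ℚ] A.H1 →ₗ[ℚ] ℚ, (∀ l, IsDivisorClass A (b l)) ∧
        ∀ v, ψ v = wedge b v} := by
  have hdrb : ∀ P ∈ A.EA, IsDRB A (A.om.comp P) := by
    intro P hP
    have hE := A.mem_EA.1 hP
    rw [← Y102.AbVar.coe_basis] at hE
    unfold IsDRB
    rw [← Y102.AbVar.coe_basis]
    exact drb_comp_end A.basis Y102.tau A.om A.om_drb' P hE
  have hdiv : ∀ P ∈ A.EA, IsDivisorClass A (A.om.comp P) := by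
    intro P hP
    refine ⟨hA _ (hdrb P hP), hdrb P hP, ?_⟩
    obtain ⟨E, hE', hinv⟩ := A.isHodge_om
    obtain ⟨P', hP'⟩ := A.hodge_end (A.mem_EA.1 hP)
    refine ⟨E.comp (P'.restrictScalars ℝ), fun x y => ?_, fun z hz u v => ?_⟩
    · rw [LinearMap.comp_apply, LinearMap.comp_apply, LinearMap.restrictScalars_apply,
        hP', hE']
    · rw [LinearMap.comp_apply, LinearMap.comp_apply, LinearMap.restrictScalars_apply,
        LinearMap.restrictScalars_apply, P'.map_smul, hinv z hz]
  have hsym : ∀ P ∈ A.EA, ∀ u v, A.om (P u) v = A.om u (P v) := by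
    intro P hP u v
    have h1 : ∀ w, A.om (P w) w = 0 := hA _ (hdrb P hP)
    have h2 := h1 (u + v)
    simp only [map_add, LinearMap.add_apply, h1, zero_add, add_zero] at h2
    rw [A.om_anti u (P v)]
    linear_combination h2
  have hdim' : ∀ χ : A.EA → ℂ, finrank ℂ (P8H30.SW.JE A χ) ≤ 4 := by
    intro χ
    have h1 := hdim fun P => χ ⟨P.1, A.mem_EA.2 P.2⟩
    have h2 : P8H30.SW.JE A χ = eigenspace A fun P => χ ⟨P.1, A.mem_EA.2 P.2⟩ := by
      ext v
      rw [P8H30.SW.mem_JE]
      unfold eigenspace
      rw [Submodule.mem_iInf]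
      constructor
      · intro h P
        rw [Module.End.mem_eigenspace_iff]
        exact h ⟨P.1, A.mem_EA.2 P.2⟩
      · intro h P
        have h3 := h ⟨P.1, A.mem_EA.1 P.2⟩
        rw [Module.End.mem_eigenspace_iff] at h3
        exact h3
    rw [h2]
    exact h1
  have h0 := P8H30.SW.main A hsym hdim' hφ fun v i j hij hv => φ.map_eq_zero_of_eq v hv hij
  -- the alternating part
  have key : ∀ ψ ∈ Submodule.span ℚ (A.LefProd A.EA m), MultilinearMap.alternatization ψ ∈
      Submodule.span ℚ {ψ : A.H1 [⋀^Fin m × Fin 2]→ₗ[ℚ] ℚ |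
      ∃ b : Fin m → A.H1 →ₗ[ℚ] A.H1 →ₗ[ℚ] ℚ, (∀ l, IsDivisorClass A (b l)) ∧
        ∀ v, ψ v = wedge b v} := by
    intro ψ hψ
    induction hψ using Submodule.span_induction with
    | mem ψ hψ =>
      obtain ⟨σ, Q, hQ, h⟩ := hψ
      have h1 : MultilinearMap.alternatization ψ =
          ((Equiv.Perm.sign σ : ℤ) : ℚ) •
            (((Equiv.Perm.sign σ : ℤ) : ℚ) • MultilinearMap.alternatization ψ) := by
        rw [smul_smul]
        have h2 : ((Equiv.Perm.sign σ : ℤ) : ℚ) * ((Equiv.Perm.sign σ : ℤ) : ℚ) = 1 := by
          rw [← Int.cast_mul, ← Units.val_mul, Int.units_mul_self, Units.val_one, Int.cast_one]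
        rw [h2, one_smul]
      rw [h1]
      refine Submodule.smul_mem _ _ (Submodule.subset_span
        ⟨fun l => A.om.comp (Q l), fun l => hdiv _ (hQ l), fun v => ?_⟩)
      rw [AlternatingMap.smul_apply, MultilinearMap.alternatization_apply, smul_eq_mul,
        Finset.mul_sum]
      unfold wedge
      refine Fintype.sum_equiv (Equiv.mulRight σ) _ _ fun τ => ?_
      rw [Equiv.coe_mulRight, Equiv.Perm.sign_mul, MultilinearMap.domDomCongr_apply, h,
        Units.smul_def, zsmul_eq_mul]
      simp only [Equiv.Perm.mul_apply, LinearMap.comp_apply]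
      push_cast
      ring
    | zero => rw [map_zero]; exact Submodule.zero_mem _
    | add a b _ _ ha hb => rw [map_add]; exact Submodule.add_mem _ ha hb
    | smul c a _ ha =>
      have h1 : MultilinearMap.alternatization (c • a) = c • MultilinearMap.alternatization a := by
        ext v
        rw [AlternatingMap.smul_apply, MultilinearMap.alternatization_apply,
          MultilinearMap.alternatization_apply, Finset.smul_sum]
        refine Finset.sum_congr rfl fun τ _ => ?_
        rw [MultilinearMap.domDomCongr_apply, MultilinearMap.domDomCongr_apply,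
          MultilinearMap.smul_apply, smul_comm]
      rw [h1]
      exact Submodule.smul_mem _ _ ha
  have h1 := key _ h0
  rw [AlternatingMap.coe_alternatization] at h1
  have h2 : φ = ((Nat.factorial (Fintype.card (Fin m × Fin 2)) : ℚ)⁻¹) •
      (Nat.factorial (Fintype.card (Fin m × Fin 2)) • φ) := by
    rw [← Nat.cast_smul_eq_nsmul ℚ, smul_smul, inv_mul_cancel₀, one_smul]
    exact Nat.cast_ne_zero.2 (Nat.factorial_ne_zero _)
  rw [h2]
  exact Submodule.smul_mem _ _ h1

end Pool.Agent.Results.MP_470b79_ag.HalfMaximalRealMult
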