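import Pool.Agent.P8H30.HT.Main

/-!
# `Ω^dRB` of the hypergeometric motives (mirror quintics etc.) near the point of maximally unipotent monodromy

Let `α_1, …, α_m` be rational numbers which are not integers, `c ≥ 1` an integer and `θ = x d/dx`. The hypergeometric operator
`θ^(2m) - c x ∏_j (θ + α_j) (θ + 1 - α_j)` has maximally unipotent monodromy at `x = 0`. Its solutions are the periods of a family
of hypergeometric motives `M_t` of rank `2m` and weight `w = 2m - 1` over `ℚ`, `x = 1/t`; for `m = 1` the motives `h^1` of families of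
elliptic curves, for `m = 2` and 14 choices of `α`, `c` the motives `h^3` of the fibres of the families of Calabi-Yau threefolds
(`α = (1/5, 2/5)`, `c = 5^5`: mirrors of the quintic threefolds). The period matrix of `M_t` is the transposed of `R Y(1/t) Ω`, where the
entries of `Y` are the derivatives `θ^i f_j` of the Frobenius basis of solutions, `R` is a matrix over `ℚ` or over a number
field `K` (the choice of a basis of algebraic forms) and `Ω` is the matrix of the periods of the limit motive at `x = 0`, whose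
entries are polynomials in few numbers `z_1, …, z_r`: for `m = 1` in `2πi`, for the mirror quintics in `2πi` and `ζ(3)`.

Let `M_0` be any de Rham-Betti object over `K` (the realisation of any motive over `K`; it may be zero) with the period matrix `C₀`
such that the entries of `C₀` and of `λ C₀⁻¹`, where `λ = (2πi)^w`, and `λ` are polynomials in the same numbers `z_i`.

**Theorem.** Let `T` be any set of integers in the window `[M, M + M^κ]` with distances at least `G` (for example all multiples of `G`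
in the window). There is a set `S ⊆ T` of at most `r + 1` elements, depending only on `T` and on `z_1, …, z_r`, such that for all
distinct `t_1, …, t_k ∈ T` outside `S`: the smallest `K`-subtorsor of `Iso` for `M_0 ⊕ ℚ(-w) ⊕ M_(t_1) ⊕ … ⊕ M_(t_k)` which contains
the period matrix is the fibre product over `G_m` of `Ω_0` and of the torsors of the polarisations of the `M_(t_l)`, where `Ω_0`
is the smallest `K`-subtorsor for `M_0 ⊕ ℚ(-w)` which contains the period matrix. So it consists of all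
`x ⊕ μ ⊕ X_1 ⊕ … ⊕ X_k` such that `x ⊕ μ ∈ Ω_0` and `X_l` respects the polarisation with the multiplier `μ`. The numbers `κ` and
`M₀` depend only on the family, on `k`, `r`, the degree of `K` and the degrees of the polynomials in the `z_i`; they do not depend on
`K`, `M_0` (of any rank), `R_l`, `Ω_l`.

Consequences. As the smallest subtorsor is contained in `Ω^dRB`, and `Ω^dRB ⊆ Ω^And ⊆ Ω^mot` are contained in the same
fibre product with `Ω^dRB`, `Ω^And`, `Ω^mot` of `M_0 ⊕ ℚ(-w)` in the place of `Ω_0` (if the polarisations are motivated or algebraic),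
the equalities `Ω^dRB = Ω^And` (`= Ω^mot`) hold for `M_0 ⊕ ℚ(-w) ⊕ M_(t_1) ⊕ … ⊕ M_(t_k)` if `Ω_0` is `Ω^And` (`Ω^mot`) of
`M_0 ⊕ ℚ(-w)`. For `M_0 = 0` they hold (transcendence of `π`), so the conjecture is true for the product of the motives
`M_(t_l)`, in all degrees: every de Rham-Betti class in the tensor spaces is a combination of products of polarisations. For mirror
quintics (`r = 2`) there are at most three exceptional `t ∈ T`, whatever the number `k` of the factors is, and the same with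
the summand `M_0` if its periods are polynomials in `2πi` and `ζ(3)`; at most `q + 3`, if they are polynomials in these and in `q`
further numbers.

Proof. The relations of bounded degree between the `z_i` and the periods of the `M_(t_l)` hold on the whole torsor of the
polarisations (`Pool.Agent.P8H40.CY`, helper40, with packages of helper5, helper52, helper76 and helper93: linear independence
criterion for G-functions near a degenerate fibre at several fibres, growth of dimensions, elimination, Cayley transform). By the criterion of the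
starting files (`Pool.Agent.Y123.SR`: the Lie algebra of a subtorsor, theorem of Jordan) relations of bounded degree
determine the smallest subtorsor.
-/

set_option autoImplicit false

open PowerSeries Module

namespace Pool.Agent.Results.MP_470b79_ag.HypergeometricTorsors

/-- the power series `k + ε` in the variable `ε` -/
noncomputable def shift (k : ℕ) : PowerSeries ℚ := C (k : ℚ) + X

/-- `a_k(ε) = ∏_{l < k} ∏_j (l + ε + α_j) (l + ε + 1 - α_j) / (l + 1 + ε)^(2m)`. The series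
`∑_k a_k(ε) c^k x^(k + ε)` solves the equation `(θ^(2m) - c x ∏_j (θ + α_j) (θ + 1 - α_j)) f = ε^(2m) x^ε`, hence its
coefficients `f_j` at `ε^j` with `j < 2m` are solutions of the homogeneous equation (the Frobenius basis). -/
noncomputable def frob {m : ℕ} (α : Fin m → ℚ) (k : ℕ) : PowerSeries ℚ :=
  ∏ l ∈ Finset.range k, ((∏ j, ((shift l + C (α j)) * (shift l + C (1 - α j)))) * ((shift (l + 1))⁻¹) ^ (2 * m))

/-- The matrix with the entries `(θ^i f_j)(1 / t)`, where `f_j(x)` is the coefficient of `ε^j` in the series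
`∑_k a_k(ε) c^k x^(k + ε)`, `x^ε = ∑_l (log x)^l ε^l / l!`. -/
noncomputable def Y {m : ℕ} (α : Fin m → ℚ) (c t : ℕ) : Matrix (Fin (2 * m)) (Fin (2 * m)) ℂ :=
  Matrix.of fun i j => ∑ l ∈ Finset.range ((j : ℕ) + 1), ((Real.log (1 / t) ^ l / l.factorial : ℝ) : ℂ) *
    ∑' k : ℕ, ((coeff ((j : ℕ) - l) (shift k ^ (i : ℕ) * frob α k) : ℚ) : ℂ) * ((c : ℂ) / (t : ℂ)) ^ k

/-- `T` is (the set of complex points of) a `K`-subtorsor of `GL_B = Iso (M_dR, M_B)`: it is closed under `x y⁻¹ z`, and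
it is defined in `GL_B` by polynomials with coefficients in `K`. -/
def IsSubtorsor (K : IntermediateField ℚ ℂ) {B : Type} [Fintype B] [DecidableEq B] (T : Set (Matrix B B ℂ)) : Prop :=
  (∀ x ∈ T, ∀ y ∈ T, ∀ z ∈ T, x * y⁻¹ * z ∈ T) ∧ ∃ I : Set (MvPolynomial (B × B) ℂ), (∀ p ∈ I, ∀ s, p.coeff s ∈ K) ∧
    ∀ x : Matrix B B ℂ, x ∈ T ↔ IsUnit x ∧ ∀ p ∈ I, MvPolynomial.eval (fun b => x b.1 b.2) p = 0

/-- `Ω` is the smallest `K`-subtorsor which contains the period matrix `c` -/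
def IsOmega (K : IntermediateField ℚ ℂ) {B : Type} [Fintype B] [DecidableEq B] (c : Matrix B B ℂ)
    (Ω : Set (Matrix B B ℂ)) : Prop :=
  IsSubtorsor K Ω ∧ c ∈ Ω ∧ ∀ T : Set (Matrix B B ℂ), IsSubtorsor K T → c ∈ T → Ω ⊆ T

/-- the block matrix `x ⊕ μ`; for a period matrix `x` of `M_0` and `μ = (2πi)^w` the period matrix of `M_0 ⊕ ℚ(-w)` -/
def withTate {q : ℕ} (x : Matrix (Fin q) (Fin q) ℂ) (μ : ℂ) : Matrix (Fin q ⊕ Unit) (Fin q ⊕ Unit) ℂ :=
  Matrix.fromBlocks x 0 0 (Matrix.of fun _ _ => μ)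

/-- the block matrix `x ⊕ μ ⊕ X_1 ⊕ … ⊕ X_k` -/
def total {q n k : ℕ} (x : Matrix (Fin q) (Fin q) ℂ) (μ : ℂ) (X : Fin k → Matrix (Fin n) (Fin n) ℂ) :
    Matrix ((Fin q ⊕ Unit) ⊕ (Fin n × Fin k)) ((Fin q ⊕ Unit) ⊕ (Fin n × Fin k)) ℂ :=
  Matrix.fromBlocks (withTate x μ) 0 0 (Matrix.blockDiagonal X)

/-- the alternating form on the Betti space with entries `-(-1)^i` at `(i, j)`, `|i - j| = 1` -/
def polB (n : ℕ) : Matrix (Fin n) (Fin n) ℚ :=
  Matrix.of fun i j => if (i : ℕ) = j + 1 ∨ (j : ℕ) = i + 1 then -(-1) ^ (i : ℕ) else 0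

/-- the alternating form `R⁻ᵀ J R⁻¹` on the de Rham space in terms of the algebraic forms given by `R` -/
noncomputable def polDR {n : ℕ} {K : IntermediateField ℚ ℂ} (R : (Matrix (Fin n) (Fin n) K)ˣ) (J : Matrix (Fin n) (Fin n) ℚ) :
    Matrix (Fin n) (Fin n) K :=
  ((R⁻¹ : (Matrix (Fin n) (Fin n) K)ˣ) : Matrix (Fin n) (Fin n) K).transpose * J.map (algebraMap ℚ K) *
    ((R⁻¹ : (Matrix (Fin n) (Fin n) K)ˣ) : Matrix (Fin n) (Fin n) K)

/-- `X` respects the polarisations, with the multiplier `μ` -/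
def Respects {n : ℕ} (Q X : Matrix (Fin n) (Fin n) ℂ) (μ : ℂ) : Prop :=
  X * Q * X.transpose = μ • (polB n).map (algebraMap ℚ ℂ)

/-- the fibre product of `T₀` and the torsors of the polarisations: the matrices `x ⊕ μ ⊕ X_1 ⊕ … ⊕ X_k` such that `x ⊕ μ` is in
`T₀` and the `X_l` respect the polarisations with the multiplier `μ` -/
def fibreProduct {q n k : ℕ} (Q : Fin k → Matrix (Fin n) (Fin n) ℂ) (T₀ : Set (Matrix (Fin q ⊕ Unit) (Fin q ⊕ Unit) ℂ)) :
    Set (Matrix ((Fin q ⊕ Unit) ⊕ (Fin n × Fin k)) ((Fin q ⊕ Unit) ⊕ (Fin n × Fin k)) ℂ) :=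
  {y | ∃ (x : Matrix (Fin q) (Fin q) ℂ) (μ : ℂ) (X : Fin k → Matrix (Fin n) (Fin n) ℂ),
    withTate x μ ∈ T₀ ∧ (∀ l, Respects (Q l) (X l) μ) ∧ y = total x μ X}

/-- `w` is a polynomial over `K` of degree at most `δ` in each of the numbers `z i` -/
def PolyIn {r : ℕ} (δ : ℕ) (z : Fin r → ℂ) (K : IntermediateField ℚ ℂ) (w : ℂ) : Prop :=
  ∃ p : MvPolynomial (Fin r) K, (∀ x, p.degreeOf x ≤ δ) ∧ w = MvPolynomial.aeval z p

/-- Conclusion for the fibres at `1/t_1, …, 1/t_k`, the number field `K` and the numbers `z i`: the smallest `K`-subtorsor of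
`M_0 ⊕ ℚ(-w) ⊕ M_(t_1) ⊕ … ⊕ M_(t_k)` is the fibre product of the one of `M_0 ⊕ ℚ(-w)` and of the torsors of the polarisations of
the `M_(t_l)`. Here `C₀` is any invertible matrix (of any rank `q`), `lam` any nonzero number, `R l` are any invertible matrices
over `K`, `Ω l` any invertible matrices which respect the limit form `Jlim` with the multiplier `lam`, such that the entries of
`C₀`, `lam C₀⁻¹`, `Ω l` and `lam` are polynomials in the `z i`. -/
def SmallestSubtorsor {m k : ℕ} (α : Fin m → ℚ) (c : ℕ) (t : Fin k → ℕ) (J : ℕ → Matrix (Fin (2 * m)) (Fin (2 * m)) ℚ)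
    (Jlim : Matrix (Fin (2 * m)) (Fin (2 * m)) ℚ) {r : ℕ} (δ : ℕ) (z : Fin r → ℂ) (K : IntermediateField ℚ ℂ) : Prop :=
  ∀ (q : ℕ) (C₀ : Matrix (Fin q) (Fin q) ℂ) (lam : ℂ) (R : Fin k → (Matrix (Fin (2 * m)) (Fin (2 * m)) K)ˣ)
    (Ω : Fin k → Matrix (Fin (2 * m)) (Fin (2 * m)) ℂ), IsUnit C₀ → lam ≠ 0 → (∀ l, IsUnit (Ω l)) →
    (∀ l, (Ω l).transpose * Jlim.map (algebraMap ℚ ℂ) * Ω l = lam • (polB (2 * m)).map (algebraMap ℚ ℂ)) →
    (∀ i j, PolyIn δ z K (C₀ i j)) → (∀ i j, PolyIn δ z K (lam * C₀⁻¹ i j)) → PolyIn δ z K lam →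
    (∀ l i j, PolyIn δ z K (Ω l i j)) →
    ∃ Ω₀, IsOmega K (withTate C₀ lam) Ω₀ ∧
      IsOmega K (total C₀ lam fun l => ((R l : Matrix (Fin (2 * m)) (Fin (2 * m)) K).map (algebraMap K ℂ) * Y α c (t l) *
        Ω l).transpose) (fibreProduct (fun l => (polDR (R l) (J (t l))).map (algebraMap K ℂ)) Ω₀)

theorem Y_eq {m : ℕ} (α : Fin m → ℚ) (c t : ℕ) (hc : 1 ≤ c) (ht : 1 ≤ t) : Y α c t = Pool.Agent.P8H40.HA.Ya α c t := by
  have hc0 : (c : ℝ) ≠ 0 := by
    have : c ≠ 0 := by omega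
    exact_mod_cast this
  have ht0 : (t : ℝ) ≠ 0 := by
    have : t ≠ 0 := by omega
    exact_mod_cast this
  ext i j
  unfold Y Pool.Agent.P8H40.HA.Ya
  rw [Matrix.of_apply, Matrix.mul_apply]
  have hE : ∀ a : Fin (2 * m), Pool.Agent.Y119.HY.E (Pool.Agent.Y119.HY.cm (Pool.Agent.Y119.HY.Am (2 * m)))
      (-((Real.log t : ℝ) : ℂ)) a j = ∑ l ∈ Finset.range (2 * m),
        if (j : ℕ) = a + l then ((Real.log (1 / t) ^ l / l.factorial : ℝ) : ℂ) else 0 := by
    intro a
    unfold Pool.Agent.Y119.HY.E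
    rw [Matrix.sum_apply]
    refine Finset.sum_congr rfl fun l _ => ?_
    rw [Matrix.smul_apply, ← Pool.Agent.Y119.HY.cm_pow, Pool.Agent.Y119.HY.cm_apply, Pool.Agent.Y119.HY.Am_pow, smul_eq_mul,
      one_div, Real.log_inv]
    split_ifs
    · push_cast
      ring
    · simp
  simp only [hE, Finset.mul_sum]
  rw [Finset.sum_comm]
  have hsub : Finset.range ((j : ℕ) + 1) ⊆ Finset.range (2 * m) := by
    intro l hl
    rw [Finset.mem_range] at hl ⊢
    have := j.2
    omega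
  refine Finset.sum_subset_zero_on_sdiff hsub (fun l hl => ?_) fun l hl => ?_
  · rw [Finset.mem_sdiff, Finset.mem_range, Finset.mem_range] at hl
    refine Finset.sum_eq_zero fun a _ => ?_
    rw [if_neg (by omega), mul_zero]
  · rw [Finset.mem_range] at hl
    have hj := j.2
    rw [Finset.sum_eq_single (⟨(j : ℕ) - l, by omega⟩ : Fin (2 * m))]
    · rw [if_pos (by simp only; omega), mul_comm]
      congr 1
      unfold Pool.Agent.P8H40.HA.Vx Pool.Agent.Y113.ev
      rw [Matrix.of_apply, Complex.ofReal_tsum]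
      refine tsum_congr fun k => ?_
      have h1 : coeff k (Pool.Agent.P8H40.HA.Ha α i (⟨(j : ℕ) - l, by omega⟩ : Fin (2 * m))) =
          coeff ((j : ℕ) - l) (shift k ^ (i : ℕ) * frob α k) := by
        unfold Pool.Agent.P8H40.HA.Ha
        rw [Matrix.of_apply, coeff_mk]
        rfl
      have h2 : (1 / ((t : ℝ) / c)) = (c : ℝ) / t := by
        field_simp
      rw [h1, h2]
      push_cast
      rfl
    · intro a _ ha
      rw [if_neg, mul_zero]
      intro h
      apply ha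
      apply Fin.ext
      simp only
      omega
    · intro h
      exact absurd (Finset.mem_univ _) h

theorem sub_iff {K : IntermediateField ℚ ℂ} {B : Type} [Fintype B] [DecidableEq B] {T : Set (Matrix B B ℂ)} :
    IsSubtorsor K T ↔ Pool.Agent.TH127.PT.IsSubtorsor K.toSubfield T := by
  constructor
  · rintro ⟨h1, I, h2, h3⟩
    exact ⟨fun x hx => ((h3 x).1 hx).1, h1, I, h2, h3⟩
  · rintro ⟨-, h1, I, h2, h3⟩
    exact ⟨h1, I, h2, h3⟩

theorem om_iff {K : IntermediateField ℚ ℂ} {B : Type} [Fintype B] [DecidableEq B] {c : Matrix B B ℂ} {Ω : Set (Matrix B B ℂ)} :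
    IsOmega K c Ω ↔ Pool.Agent.Y123.ST.Om K.toSubfield c Ω := by
  constructor
  · rintro ⟨h1, h2, h3⟩
    exact ⟨Pool.Agent.Y123.ST.subT_iff.2 (sub_iff.1 h1), h2,
      fun T hT hc => h3 T (sub_iff.2 (Pool.Agent.Y123.ST.subT_iff.1 hT)) hc⟩
  · rintro ⟨h1, h2, h3⟩
    exact ⟨sub_iff.2 (Pool.Agent.Y123.ST.subT_iff.1 h1), h2,
      fun T hT hc => h3 T (Pool.Agent.Y123.ST.subT_iff.2 (sub_iff.1 hT)) hc⟩

theorem withTate_unit {r : ℕ} {x : Matrix (Fin r) (Fin r) ℂ} (hx : IsUnit x) {μ : ℂ} (hμ : μ ≠ 0) :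
    IsUnit (withTate x μ) := by
  rw [Matrix.isUnit_iff_isUnit_det] at hx ⊢
  have h1 : (Matrix.of fun _ _ => μ : Matrix Unit Unit ℂ).det = μ := by
    rw [Matrix.det_unique]
    rfl
  unfold withTate
  rw [Matrix.det_fromBlocks_zero₂₁, h1]
  exact hx.mul (isUnit_iff_ne_zero.2 hμ)

theorem withTate_inv {r : ℕ} {x : Matrix (Fin r) (Fin r) ℂ} (hx : IsUnit x) {μ : ℂ} (hμ : μ ≠ 0) :
    (withTate x μ)⁻¹ = withTate x⁻¹ μ⁻¹ := by
  apply Matrix.inv_eq_right_inv
  have h1 : x * x⁻¹ = 1 := Matrix.mul_nonsing_inv _ ((Matrix.isUnit_iff_isUnit_det x).1 hx)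
  have h2 : (Matrix.of fun _ _ => μ : Matrix Unit Unit ℂ) * (Matrix.of fun _ _ => μ⁻¹) = 1 := by
    ext i j
    rw [Matrix.mul_apply]
    simp [hμ]
  unfold withTate
  rw [Matrix.fromBlocks_multiply, h1, h2]
  simp

theorem cm_withTate {r : ℕ} (x : Matrix (Fin r) (Fin r) ℂ) (μ : ℂ) :
    Pool.Agent.Y123.SR.Cm (Sum.inr ()) (withTate x μ) := by
  rintro (k | ⟨⟩) hk
  · exact ⟨rfl, rfl⟩
  · exact absurd rfl hk

theorem eq_withTate {r : ℕ} {x : Matrix (Fin r ⊕ Unit) (Fin r ⊕ Unit) ℂ}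
    (h2 : Pool.Agent.Y123.SR.Cm (Sum.inr ()) x) :
    x = withTate (Matrix.of fun i j => x (Sum.inl i) (Sum.inl j)) (x (Sum.inr ()) (Sum.inr ())) := by
  ext i j
  rcases i with i | ⟨⟩
  · rcases j with j | ⟨⟩
    · rfl
    · exact (h2 (Sum.inl i) (by simp)).2
  · rcases j with j | ⟨⟩
    · exact (h2 (Sum.inl j) (by simp)).1
    · rfl

theorem jm_eq (n : ℕ) : Pool.Agent.Y118.HP.jm ℂ n = (polB n).map (algebraMap ℚ ℂ) := by
  ext i j
  rw [Matrix.map_apply]
  unfold Pool.Agent.Y118.HP.jm polB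
  rw [Matrix.of_apply, Matrix.of_apply]
  split_ifs
  · simp
  · simp

theorem fibreProduct_eq {q n k : ℕ} (Q : Fin k → Matrix (Fin n) (Fin n) ℂ)
    {Ω₀ : Set (Matrix (Fin q ⊕ Unit) (Fin q ⊕ Unit) ℂ)} (hΩ : ∀ x ∈ Ω₀, IsUnit x) :
    Pool.Agent.Y123.SR.FP Q (Sum.inr ()) Ω₀ = fibreProduct Q Ω₀ := by
  ext y
  constructor
  · rintro ⟨x, X, h1, h2, h3, rfl⟩
    have h4 := eq_withTate h2
    refine ⟨Matrix.of fun i j => x (Sum.inl i) (Sum.inl j), x (Sum.inr ()) (Sum.inr ()), X, ?_, fun l => ?_, ?_⟩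
    · rw [← h4]
      exact h1
    · unfold Respects
      rw [← jm_eq]
      exact h3.2 l
    · unfold Pool.Agent.Y123.SR.E2 total
      rw [← h4]
  · rintro ⟨x, μ, X, h1, h2, rfl⟩
    have hcm := cm_withTate x μ
    have h0 := (Pool.Agent.Y123.SR.cm_inv (hΩ _ h1) hcm).2.1
    refine ⟨withTate x μ, X, h1, hcm, ⟨h0, fun l => ?_⟩, rfl⟩
    have h3 := h2 l
    unfold Respects at h3
    rw [← jm_eq] at h3
    exact h3

/-- The theorem. `G`, `t₀`, `J` and `Jlim` depend only on the family, `κ` and `M₀` only on the family and on `k, r, δ, D`, and the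
exceptional set `S` only on the family, on `k, r, δ, D`, on `M`, `z` and `T`. As `t ≥ t₀ > c`, the series in the definition of `Y`
converge absolutely. -/
theorem result (m : ℕ) (hm : 1 ≤ m) (α : Fin m → ℚ) (hα : ∀ j, ∀ a : ℤ, α j ≠ a) (c : ℕ) (hc : 1 ≤ c) :
    ∃ (G t₀ : ℕ) (J : ℕ → Matrix (Fin (2 * m)) (Fin (2 * m)) ℚ) (Jlim : Matrix (Fin (2 * m)) (Fin (2 * m)) ℚ),
      1 ≤ G ∧ c < t₀ ∧ Jlim.transpose = -Jlim ∧ Jlim.det ≠ 0 ∧
      (∀ t : ℕ, t₀ ≤ t → (J t).transpose = -J t ∧ (J t).det ≠ 0 ∧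
        (Y α c t).transpose * (J t).map (algebraMap ℚ ℂ) * Y α c t = Jlim.map (algebraMap ℚ ℂ)) ∧
      ∀ k r δ D : ℕ, ∃ (κ : ℝ) (M₀ : ℕ), 0 < κ ∧ t₀ ≤ M₀ ∧ ∀ M : ℕ, M₀ ≤ M → ∀ z : Fin r → ℂ,
        ∀ T : Finset ℕ, (∀ t ∈ T, M ≤ t ∧ (t : ℝ) ≤ M + (M : ℝ) ^ κ) → (∀ t ∈ T, ∀ t' ∈ T, t ≠ t' → (G : ℤ) ≤ |(t : ℤ) - t'|) →
          ∃ S : Finset ℕ, S ⊆ T ∧ S.card ≤ r + 1 ∧ ∀ t : Fin k → ℕ, Function.Injective t → (∀ l, t l ∈ T \ S) →
            ∀ (K : IntermediateField ℚ ℂ) [FiniteDimensional ℚ K], finrank ℚ K ≤ D →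
              SmallestSubtorsor α c t J Jlim δ z K := by
  obtain ⟨G, t₀, J, Jl, hG1, htc, hJl1, hJl2, hJ, hmain⟩ := Pool.Agent.P8H30.HT.main hm α hα c hc
  refine ⟨G, t₀, J, Jl, hG1, htc, hJl1, hJl2, fun t ht => ?_, fun k r δ D => ?_⟩
  · obtain ⟨h1, h2, h3⟩ := hJ t ht
    rw [Y_eq α c t hc (by omega)]
    exact ⟨h1, h2, h3⟩
  · obtain ⟨κ, M₀, hκ, hM₀, h⟩ := hmain k r δ D
    refine ⟨κ, M₀, hκ, hM₀, fun M hM z T hT hTs => ?_⟩
    obtain ⟨S, hST, hS, hSt⟩ := h M hM z T hT hTs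
    refine ⟨S, hST, hS, fun t htinj htS K _ hK => ?_⟩
    have ht : ∀ l, t₀ ≤ t l := fun l => hM₀.trans (hM.trans (hT (t l) (Finset.mem_sdiff.1 (htS l)).1).1)
    intro q C₀ lam R Ω hC₀ hlam hΩu hΩ hp1 hp2 hp3 hp4
    have hu := withTate_unit hC₀ hlam
    have hOm := Pool.Agent.Y123.SR.OmS_om (K := K.toSubfield) hu
    refine ⟨_, om_iff.2 hOm, ?_⟩
    have h0 : PolyIn δ z K ((0 : ℂ)) := ⟨0, fun x => by rw [MvPolynomial.degreeOf_zero]; exact Nat.zero_le _,
      (map_zero _).symm⟩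
    have hone : PolyIn δ z K (1 : ℂ) := ⟨1, fun x => by
      have : (1 : MvPolynomial (Fin r) K) = MvPolynomial.C 1 := rfl
      rw [this, MvPolynomial.degreeOf_C]
      exact Nat.zero_le _, (map_one _).symm⟩
    have h1 := hSt t htinj htS K hK (Fin q ⊕ Unit) (Sum.inr ()) (withTate C₀ lam) R Ω hu (cm_withTate _ _) hlam
      (fun i j => by
        rcases i with i | i <;> rcases j with j | j
        · exact hp1 i j
        · exact h0
        · exact h0
        · exact hp3) (fun i j => by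
        rw [withTate_inv hC₀ hlam]
        show PolyIn δ z K (lam * withTate C₀⁻¹ lam⁻¹ i j)
        rcases i with i | i <;> rcases j with j | j
        · exact hp2 i j
        · show PolyIn δ z K (lam * 0)
          rw [mul_zero]
          exact h0
        · show PolyIn δ z K (lam * 0)
          rw [mul_zero]
          exact h0
        · show PolyIn δ z K (lam * lam⁻¹)
          rw [mul_inv_cancel₀ hlam]
          exact hone) hp4 hΩu (fun l => by rw [jm_eq]; exact hΩ l) _ hOm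
    have h3 := fibreProduct_eq (q := q) (fun l => (polDR (R l) (J (t l))).map (algebraMap K ℂ))
      (Ω₀ := Pool.Agent.Y123.SR.OmS K.toSubfield (withTate C₀ lam))
      (fun x hx => (Pool.Agent.Y123.ST.subT_iff.1 hOm.1).isUnit x hx)
    rw [om_iff, ← h3]
    have h4 : (fun l => ((R l : Matrix (Fin (2 * m)) (Fin (2 * m)) K).map (algebraMap K ℂ) * Y α c (t l) * Ω l).transpose) =
        fun l => ((R l : Matrix (Fin (2 * m)) (Fin (2 * m)) K).map (algebraMap K ℂ) *
          Pool.Agent.P8H40.HA.Ya α c (t l) * Ω l).transpose := by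
      funext l
      rw [Y_eq α c (t l) hc (by have := ht l; omega)]
    rw [h4]
    exact h1

end Pool.Agent.Results.MP_470b79_ag.HypergeometricTorsors
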