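import Pool.Agent.P8H28.DB.Conv

/-!
# Effective one percent laws for the de Rham-Betti classes on the powers of a variety

Let `X` be a smooth projective variety over a subfield `K` of the algebraic numbers, `b` the sum of its
Betti numbers. For `n ≥ 0` let `d n` be the number of linearly independent de Rham-Betti classes on
`X ^ (n + 1)` (classes `c` in `H^(2 j)(X ^ (n + 1), ℚ)` such that `(2 π i) ^ j c` is in the algebraic de Rham
cohomology over `K`), and let `h n`, `m n` be the numbers of linearly independent classes which are de
Rham-Betti classes and Hodge classes, respectively motivated classes (André). The equality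
`Ω^dRB = Ω^And` for `M = h(X)` implies that all de Rham-Betti classes on all powers of `X` are motivated
(and is equivalent to it if `G_dRB(M)` is reductive); it then implies `m n = h n = d n`. The theorem,
for every `κ ≥ 0`:

1. All de Rham-Betti classes on `X ^ (κ + 1)` are Hodge classes, or for ALL `L ≥ 1` and `n ≥ 1`

     `(L - C log (n + 2) / n) h n ≤ d n`, `C = 3 L (L (κ + 1) + 3) b ^ (L (κ + 1) + 5)`,

   and for all `n` we have `log (n + 1) h n ≤ 56 (κ + 1) log (2 b) d n`.
   So if for ONE `n` with `log (n + 1) > 5600 (κ + 1) log (2 b)` at least one percent of the de Rham-Betti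
   classes on `X ^ (n + 1)` are Hodge classes, then all de Rham-Betti classes on `X ^ (κ + 1)` are Hodge classes.

2. All de Rham-Betti classes on `X ^ (κ + 1)` are motivated, or for all `n ≥ 1`

     `(2 - C log (n + 2) / n) m n ≤ d n`, `C = 6 (κ + 4) b ^ (κ + 6)`.

3. If the Hodge classes on `X ^ (κ + 1)` are motivated (for example for abelian varieties, by a theorem of
   André): all de Rham-Betti classes on `X ^ (κ + 1)` are motivated, or the bounds of 1 hold with `m n` in
   the place of `h n`.

4. All de Rham-Betti classes on `X ^ (κ + 1)` are algebraic, or for all `n ≥ 1`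

     `(2 - C log (n + 2) / n) r n ≤ d n`, `C = 18 (κ + 4) b ^ (κ + 6)`,

   where `r n` is the number of linearly independent classes of algebraic cycles on `X ^ (n + 1)` modulo
   numerical equivalence.

Nothing is assumed about periods, and `X` is arbitrary.

The proof of 1. Let `q` be a de Rham-Betti class on `X ^ (κ + 1)` which is not a Hodge class. Let `S` be the
system of the classes on all varieties which are de Rham-Betti classes and Hodge classes; its pairings are
perfect, because the inverses of the Lefschetz isomorphisms respect both properties, and by the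
Hodge-Riemann relations. If the external power `q ^ (t + 1)` could be obtained from `1, q, …, q ^ t` by
correspondences in `S`, then all external powers of `q` could be obtained from these; the operator `g` of
the Hodge decomposition (which multiplies `H^(p, q)` by `2 ^ (p - q)`) would satisfy one polynomial
equation on all of them, and so `q` would be fixed by `g`, hence a Hodge class. So the external powers
generate arbitrarily long chains of subspaces stable under the correspondences in `S`, and each step of such
a chain contributes asymptotically at least as many de Rham-Betti classes as there are classes in `S`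
(`Pool/Agent/P8H28/OP`, with explicit constants).
-/

open CategoryTheory AlgebraicGeometry

universe u

namespace Pool.Agent.Results.MP_470b79_ag.OnePercentLaw

open Pool.Agent.H914 Pool.Agent.H914.VarClass Pool.Agent.H914.VarClass.Obj
open Pool.Agent.Y133.Half (pw)
open Pool.Agent.Y121.AHS (HodgeTheory IsHodge toH)
open Pool.Agent.R920.MT (IsMotivated)
open Pool.Agent.P8H28.DB

variable {k : Type u} [Field k] {𝒱 : VarClass k} {ops : CycleOps 𝒱} {T : HodgeTheory ops}
  {F : Subfield ℂ}

/-- The classes which are Hodge classes and de Rham-Betti classes. -/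
def IsHodgeDRB (D : DeRham T.W F) (X : 𝒱.Obj) (j : ℕ) (c : T.W.H X) : Prop :=
  IsHodge T X j c ∧ IsDRB D X j c

/-- Every class with the property `P` on `X` has the property `Q`. -/
def AllAre {W : WeilCohomology.{u, 0} ops} (P Q : ∀ X : 𝒱.Obj, ℕ → W.H X → Prop) (X : 𝒱.Obj) : Prop :=
  ∀ j c, P X j c → Q X j c

lemma sparse_mono {h h' t : ℕ → ℕ} {κ b : ℕ} (hh : ∀ n, h' n ≤ h n) (hs : Sparse h t κ b) :
    Sparse h' t κ b := by
  refine ⟨fun L n hL hn => ?_, fun n => ?_⟩
  · have h1 := hs.1 L n hL hn
    have h2 : (h' n : ℝ) ≤ h n := by exact_mod_cast hh n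
    have h3 : (0 : ℝ) ≤ h' n := Nat.cast_nonneg _
    have h4 : (0 : ℝ) ≤ t n := Nat.cast_nonneg _
    rcases le_total 0 ((L : ℝ) - (3 * L * (L * (κ + 1) + 3) * b ^ (L * (κ + 1) + 5) : ℕ) *
      Real.log (n + 2) / n) with h5 | h5
    · exact (mul_le_mul_of_nonneg_left h2 h5).trans h1
    · exact (mul_nonpos_of_nonpos_of_nonneg h5 h3).trans h4
  · have h2 : (h' n : ℝ) ≤ h n := by exact_mod_cast hh n
    have h3 : 0 ≤ Real.log ((n : ℝ) + 1) := Real.log_nonneg (by
      have : (0 : ℝ) ≤ n := Nat.cast_nonneg _
      linarith)
    exact (mul_le_mul_of_nonneg_left h2 h3).trans (hs.2 n)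

/-- **Effective one percent laws for the de Rham-Betti classes.** Let `X` be a variety over a subfield of
the algebraic numbers, `b` the sum of its Betti numbers and `κ ≥ 0`.

1. All de Rham-Betti classes on `X ^ (κ + 1)` are Hodge classes, or the de Rham-Betti classes which are
Hodge classes are sparse among the de Rham-Betti classes on the powers `X ^ (n + 1)`, for every `n`.

2. All de Rham-Betti classes on `X ^ (κ + 1)` are motivated, or asymptotically at most one half of the de
Rham-Betti classes are motivated, effectively for every `n`.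

3. If the Hodge classes on `X ^ (κ + 1)` are motivated, then all de Rham-Betti classes on it are motivated, or
the motivated classes are sparse among the de Rham-Betti classes.

4. All de Rham-Betti classes on `X ^ (κ + 1)` are algebraic, or the rank of the group of algebraic cycles
modulo numerical equivalence is asymptotically at most one half of the number of de Rham-Betti classes,
effectively for every `n`. -/
theorem result (D : DeRham T.W F) (X : 𝒱.Obj) (κ b : ℕ)
    (hb : b = Module.finrank T.W.K (T.W.H X)) :
    (AllAre (IsDRB D) (IsHodge T) (pw X κ) ∨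
      Sparse (num T.W (IsHodgeDRB D) X) (num T.W (IsDRB D) X) κ b) ∧
    (AllAre (IsDRB D) (IsMotivated T.W) (pw X κ) ∨
      HalfBound (6 * (κ + 4) * b ^ (κ + 6)) (num T.W (IsMotivated T.W) X) (num T.W (IsDRB D) X)) ∧
    (AllAre (IsHodge T) (IsMotivated T.W) (pw X κ) →
      AllAre (IsDRB D) (IsMotivated T.W) (pw X κ) ∨
        Sparse (num T.W (IsMotivated T.W) X) (num T.W (IsDRB D) X) κ b) ∧
    (AllAre (IsDRB D) (IsAlg T.W) (pw X κ) ∨
      HalfBound (18 * (κ + 4) * b ^ (κ + 6)) (algRank T.W X) (num T.W (IsDRB D) X)) := by
  have hK : ∀ r : T.W.K, algebraMap T.W.K ℂ r ∈ F := by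
    intro r
    obtain ⟨q, rfl⟩ := T.rat r
    rw [map_ratCast]
    exact SubfieldClass.ratCast_mem F q
  let D' : Pool.Agent.Y133.Per.DeRham (toH T).W F := toPer D hK
  have hD : Pool.Agent.R920.DB.IsGraded D' := isGraded
  have hiff : ∀ (Z : 𝒱.Obj) (j : ℕ) (c : T.W.H Z), Pool.Agent.Y133.Per.IsDRB D' Z j c ↔
      IsDRB D Z j c := fun Z j c => isDRB_iff
  let g : ℕ → ℕ := fun n =>
    Module.finrank (toH T).W.K ((Pool.Agent.Y133.Per.drbPred D').sys.C (pw X n))
  let f : ℕ → ℕ := fun n => Module.finrank (toH T).W.K ((bothPred D').sys.C (pw X n))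
  have hg : g = num T.W (IsDRB D) X := by
    funext n
    have h : ({c | ∃ j, Pool.Agent.Y133.Per.IsDRB D' (pw X n) j c} : Set (T.W.H (pw X n))) =
        {c | ∃ j, IsDRB D (pw X n) j c} := Set.ext fun c => exists_congr fun j => hiff _ j c
    exact congrArg (fun s : Set (T.W.H (pw X n)) =>
      Module.finrank T.W.K (Submodule.span T.W.K s)) h
  have hf : f = num T.W (IsHodgeDRB D) X := by
    funext n
    have h : ({c | ∃ j, IsHodge T (pw X n) j c ∧ Pool.Agent.Y133.Per.IsDRB D' (pw X n) j c} :
        Set (T.W.H (pw X n))) = {c | ∃ j, IsHodgeDRB D (pw X n) j c} :=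
      Set.ext fun c => exists_congr fun j => and_congr_right fun _ => hiff _ j c
    exact congrArg (fun s : Set (T.W.H (pw X n)) =>
      Module.finrank T.W.K (Submodule.span T.W.K s)) h
  have h1 : AllAre (IsDRB D) (IsHodge T) (pw X κ) ∨
      Sparse (num T.W (IsHodgeDRB D) X) (num T.W (IsDRB D) X) κ b := by
    rcases drb_law (T := toH T) (D := D') hD X κ b hb with h | h
    · exact Or.inl fun j c hc => h j c ((hiff _ j c).2 hc)
    · have hs : Sparse f g κ b := h
      rw [hf, hg] at hs
      exact Or.inr hs
  refine ⟨h1, ?_, fun hM => ?_, ?_⟩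
  · rcases mot_law (T := toH T) (D := D') hD X κ hb rfl with h | h
    · exact Or.inl fun j c hc => h j c ((hiff _ j c).2 hc)
    · have hs : HalfBound (6 * (κ + 4) * b ^ (κ + 6)) (num T.W (IsMotivated T.W) X) g := h
      rw [hg] at hs
      exact Or.inr hs
  · rcases h1 with h | h
    · exact Or.inl fun j c hc => hM j c (h j c hc)
    · refine Or.inr (sparse_mono (fun n => ?_) h)
      rw [← hf]
      have h2 : Module.finrank (toH T).W.K
          ((Pool.Agent.R920.MT.motPred (toH T).W).sys.C (pw X n)) ≤ f n :=
        Submodule.finrank_mono (mot_le_both hD (pw X n))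
      exact h2
  · rcases alg_law' (T := toH T) (D := D') X κ hb rfl with h | h
    · exact Or.inl fun j c hc => Pool.Agent.N996.BP.exists_cyc (h j c ((hiff _ j c).2 hc))
    · have hs : HalfBound (18 * (κ + 4) * b ^ (κ + 6)) (algRank T.W X) g := h
      rw [hg] at hs
      exact Or.inr hs

end Pool.Agent.Results.MP_470b79_ag.OnePercentLaw
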