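import Pool.Agent.P8H30.BPD.Proof2

set_option autoImplicit false

/-!
# De Rham-Betti classes on abelian varieties with imaginary quadratic multiplication of signature
`(1, g - 1)`

Let `A` be an abelian variety of dimension `g` over `ℚ̄` such that `End(A) ⊗ ℚ = ℚ(z)`,
`z ^ 2 = - d`, is an imaginary quadratic field, and such that the eigenspace of `z` for the
eigenvalue `i √d` on the tangent space of `A` has the dimension one (`SignatureOne`; replace `z` by
`- z` for the signature `(g - 1, 1)`).

**Theorem.** Every de Rham-Betti class in `H^{2m}(A)(m)`, for `2m ≠ g`, is a rational multiple of the
`m`-th power of the class of the polarization. In particular, if `g` is odd then all de Rham-Betti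
classes in the cohomology of `A` are algebraic: they are the powers of the polarization. (The class in
`H^{2m}(A)(w)` with `w ≠ m` are zero because of the weights.)

This is the fullness of the realization (the equality in Q1 implies that it is full) for all
classes on `A`, in all degrees.

Example: let `S` be a cubic surface over `ℚ̄` and let `J` be the intermediate Jacobian of the cyclic
cubic threefold which is ramified along `S`. It has the dimension `5` and multiplication by
`ℚ(√-3)` of signature `(1, 4)`, and if there are no other endomorphisms then all de Rham-Betti
classes on `J` are powers of the class of the theta divisor; the first new case is `H^4(J)(2)`.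

**Known before.** For even `g` the de Rham-Betti group of `A` contains `SU(1, g - 1)`
(`UnitaryKugaSatake` and others), which gives the theorem in this case. For odd `g` only the classes in
`H^2(A)` were known (theorem of Bost, Wüstholz; and those in `H^{2g-2}(A)` by duality), so the
theorem is new for odd `g ≥ 5`. There it is not known that the de Rham-Betti group contains
`SU(1, g - 1)`: the theorem `RealHyperbolicPeriodGroups` of this repository shows that it contains a
conjugate of `SO(1, g - 1)`. This group has more invariants in the tensor powers of `H^1(A)` than
the unitary group, but not in the exterior powers of degrees `≠ g`, up to the centre.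

Nothing is assumed about periods: `AbVar` is the description of an abelian variety over `ℚ̄` by theta
functions (see `Pool/Agent/Y102/AVDefs.lean`, where it is explained why every abelian variety has it),
and the transcendence theorems which are used, the theorem of Schneider and Lang and the
transcendence of `π`, are proved in this repository.

## Proof

Let `𝔮` be the Lie algebra of the endomorphisms of `H_1(A, ℚ)` which annihilate all de Rham-Betti
classes. By the theorem on real hyperbolic subalgebras, `[𝔮, 𝔮] ⊗ ℝ` contains the infinitesimal
rotations of a real frame `x_0, …, x_{g-1}` of `H_1(A, ℝ) = ℂ ^ g` over `ℂ = ℝ[z]`, which is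
orthonormal of signature `(1, g - 1)` for the form `E(x, z y)`
(`Pool.Agent.P8H30.BP.exists_frame`, `hull_top`). Let `φ` be an alternating de Rham-Betti form of
degree `2m` and subtract a multiple of the power of the Riemann form, so that `φ` vanishes on
`(x_0, z x_0, …, x_{m-1}, z x_{m-1})` (this power does not vanish there, see
`Pool.Agent.P8H30.BP.pw_ne`). The values of `φ` on the basis `x_i, z x_i` are determined by a
combinatorial argument (`Pool.Agent.P8H30.BP.Val.zero`). The rotation in the plane of `x_i`, `x_j`
relates the values of `φ` on sets of basis vectors: if a set of basis vectors contains exactly one of
`x_i, z x_i` and none of `x_j, z x_j`, or two of the first and one of the second, then the value is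
zero; and the values on the sets which are unions of `m` pairs `{x_i, z x_i}` are equal up to the signs
given by the signature, so that all of them are zero. The sets which contain exactly one of `x_i, z x_i` for every `i` have `g = 2m` elements, which is
excluded.
-/

open Module Matrix Pool.Agent.Y102 Pool.Agent.P8H30.BPD2

noncomputable section

namespace Pool.Agent.Results.MP_470b79_ag.SignatureOne

/-- **Theorem.** Let `A` be an abelian variety over `ℚ̄` such that `End(A) ⊗ ℚ` is an imaginary
quadratic field, with signature `(1, g - 1)`. Then every de Rham-Betti class in
`H^{2m}(A)(m)`, `2m ≠ g`, is a rational multiple of the power of the class of the polarization. -/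
theorem result {g : ℕ} (A : AbVar g) (z : Module.End ℚ A.H1) (d : ℚ) (hA : SignatureOne A z d)
    {m : ℕ} (hm : 2 * m ≠ g) (φ : Form A m) (hφ : IsDRB A φ) (halt : IsAlternating A φ) :
    ∃ q : ℚ, ∀ v, φ v = q * polarizationPower A m v :=
  main hA hm hφ halt

end Pool.Agent.Results.MP_470b79_ag.SignatureOne
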